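import Pool.Agent.W205.K5.Stm0

set_option autoImplicit false

namespace Pool.Agent.W514.K5

open Finset Filter Topology Pool.Agent.W205.K5

theorem KK_one : KK 1 = 0 := by
  unfold KK; norm_num

theorem KK_two : KK 2 = 1 / 2 := by
  unfold KK; norm_num

theorem Th3 (ρ : ℝ) (w : ℕ → ℝ) : Th 3 ρ (fun j => w (3 - j)) =
    (1 - ρ) ^ 3 * w 3 + 3 * (1 - ρ) ^ 2 * ρ * w 2 + 3 * (1 - ρ) * ρ ^ 2 * w 1 + ρ ^ 3 * w 0 := by
  unfold Th
  simp only [sum_range_succ, sum_range_zero]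
  have h1 : (3 : ℕ).choose 0 = 1 := by decide
  have h2 : (3 : ℕ).choose 1 = 3 := by decide
  have h3 : (3 : ℕ).choose 2 = 3 := by decide
  have h4 : (3 : ℕ).choose 3 = 1 := by decide
  rw [h1, h2, h3, h4]
  norm_num

theorem piece31 (_hL : S_LINE) (hC : S_CHORD) : PIECE 3 1 := by
  intro w g hs h1 h2 ρ hρ0 hρ1 hρ
  rw [KK_one] at h1
  have h2' : g 0 ≤ 1 / 2 := by
    have := h2
    norm_num at this
    rw [KK_two] at this
    linarith
  -- the chord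
  have hch : g 0 / 2 ≤ w 0 := by
    have := hC 3 w g (by norm_num) hs 1 le_rfl (by norm_num) (by rw [KK_one]; exact h1) h2
    have e2 : KK (1 + 1) = 1 / 2 := KK_two
    rw [e2, KK_one] at this
    norm_num at this
    linarith
  -- localisation
  have hroot : 6 / 7 ≤ ρ := by
    by_contra hlt
    push Not at hlt
    norm_num at hρ
    have h3 : ρ * (26 / 27 * ρ ^ 2 + ρ / 3 - 1) = 0 := by linarith [hρ, sq_nonneg ρ, (by ring :
      ρ * (26 / 27 * ρ ^ 2 + ρ / 3 - 1) = ρ ^ 3 + (1 - ρ / 3) ^ 3 - 1)]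
    have h4 : 26 / 27 * ρ ^ 2 + ρ / 3 - 1 = 0 := by
      rcases mul_eq_zero.mp h3 with h | h
      · linarith
      · exact h
    nlinarith
  rw [Th3]
  have w3 : w 3 = 1 := hs.wk
  have g3 : g 3 = 3 := by have := hs.gk; norm_num at this; exact this
  have a2 := hs.add 2 (by norm_num)
  have a1 := hs.add 1 (by norm_num)
  have a0 := hs.add 0 (by norm_num)
  have j1 := hs.jen 1 (by norm_num)
  have j2 := hs.jen 2 (by norm_num)
  norm_num at a2 a1 a0 j1 j2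
  set c1 : ℝ := 3 * (1 - ρ) * ρ ^ 2 with hc1
  set c2 : ℝ := 3 * (1 - ρ) ^ 2 * ρ with hc2
  have h1ρ : 0 < 1 - ρ := by linarith
  have c2p : 0 ≤ c2 := by positivity
  have c12 : 0 ≤ c1 - c2 := by
    have : c1 - c2 = 3 * (1 - ρ) * ρ * (2 * ρ - 1) := by rw [hc1, hc2]; ring
    rw [this]
    have : 0 ≤ 2 * ρ - 1 := by linarith
    positivity
  have c01 : 0 ≤ ρ ^ 3 / 2 - c1 := by
    have : ρ ^ 3 / 2 - c1 = ρ ^ 2 * (7 * ρ - 6) / 2 := by rw [hc1]; ring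
    rw [this]
    have : 0 ≤ 7 * ρ - 6 := by linarith
    positivity
  have hsum : (1 - ρ) ^ 3 + c2 + c1 = 1 - ρ ^ 3 := by rw [hc1, hc2]; ring
  have e1 : 0 ≤ c2 * (w 2 + g 1 - 2) := mul_nonneg c2p (by linarith)
  have e1' : 0 ≤ c2 * (w 1 + g 0 - g 1) := mul_nonneg c2p (by linarith)
  have e2 : 0 ≤ (c1 - c2) * (w 1 + g 0 - 1) := mul_nonneg c12 (by linarith)
  have e3 : 0 ≤ (ρ ^ 3 / 2 - c1) * g 0 := mul_nonneg c01 h1
  have e4 : 0 ≤ ρ ^ 3 * (w 0 - g 0 / 2) := mul_nonneg (by positivity) (by linarith)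
  rw [w3]
  nlinarith [e1, e1', e2, e3, e4, hsum]

end Pool.Agent.W514.K5
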